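import Pool.Agent.helper10.EGH.Spec

/-!
# p2e:TR3 (helper33): the torus inequality, uniform form
-/

set_option autoImplicit false

open Complex Metric Set Filter Topology MeasureTheory

noncomputable section

namespace EGH

/-- the line `x ↦ x + i s`. -/
theorem TR3_line (s x : ℝ) : HasDerivAt (fun x : ℝ => (⟨x, s⟩ : ℂ)) 1 x := by
  have h1 : HasDerivAt (fun x : ℝ => (x : ℂ) + s * I) (1 : ℂ) x := by
    have h2 := (Complex.ofRealCLM.hasDerivAt (x := x)).add_const (s * I)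
    simpa using h2
  have h3 : (fun x : ℝ => (⟨x, s⟩ : ℂ)) = fun x : ℝ => (x : ℂ) + s * I := by
    funext y
    exact Complex.mk_eq_add_mul_I y s
  rw [h3]
  exact h1

/-- the curves are continuously differentiable. -/
theorem TR3_cur (hITD : ITD_stmt) {κ h : ℝ} {S : ℂ → ℂ} {O : Set ℂ} {N : ℕ} {P : ℕ → ℂ → ℂ} {DP : ℕ → ℂ → ℂ →L[ℝ] ℂ}
    (hB : Bx κ h S O N P DP) (l : ℕ) (hl : l < N) (s : ℝ) (hs : s ∈ Ioo (0 : ℝ) h) (t : ℕ) (hA : Al S O (P l) t s) :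
    (∀ x ∈ Icc (0 : ℝ) 1, HasDerivWithinAt (fun x : ℝ => S^[t] (P l ⟨x, s⟩)) (deriv (S^[t]) (P l ⟨x, s⟩) * DP l ⟨x, s⟩ 1) (Icc 0 1) x) ∧
    ContinuousOn (fun x : ℝ => deriv (S^[t]) (P l ⟨x, s⟩) * DP l ⟨x, s⟩ 1) (Icc 0 1) := by
  obtain ⟨hUo, hUd, -⟩ := hITD S O t hB.op hB.ho hB.inj
  have hR : ∀ x ∈ Icc (0 : ℝ) 1, (⟨x, s⟩ : ℂ) ∈ Rh h := fun x hx => ⟨hx, hs⟩
  have hU : ∀ x ∈ Icc (0 : ℝ) 1, P l ⟨x, s⟩ ∈ {w : ℂ | ∀ i < t, S^[i] w ∈ O} := fun x hx i hi => hA i hi x hx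
  have hlc : ContinuousOn (fun x : ℝ => (⟨x, s⟩ : ℂ)) (Icc 0 1) :=
    fun x _ => (TR3_line s x).continuousAt.continuousWithinAt
  constructor
  · intro x hx
    have h1 : HasDerivAt (fun x : ℝ => P l ⟨x, s⟩) (DP l ⟨x, s⟩ 1) x :=
      (hB.de l hl _ (hR x hx)).comp_hasDerivAt x (TR3_line s x)
    have h2 : HasDerivAt (S^[t]) (deriv (S^[t]) (P l ⟨x, s⟩)) (P l ⟨x, s⟩) :=
      (hUd.differentiableAt (hUo.mem_nhds (hU x hx))).hasDerivAt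
    exact (h2.comp x h1).hasDerivWithinAt
  · have h1 : ContinuousOn (fun x : ℝ => P l ⟨x, s⟩) (Icc 0 1) := fun x hx =>
      ((hB.de l hl _ (hR x hx)).comp_hasDerivAt x (TR3_line s x)).continuousAt.continuousWithinAt
    have h2 : ContinuousOn (fun x : ℝ => deriv (S^[t]) (P l ⟨x, s⟩)) (Icc 0 1) :=
      (hUd.deriv hUo).continuousOn.comp h1 hU
    have h3 : ContinuousOn (fun x : ℝ => DP l ⟨x, s⟩) (Icc 0 1) := (hB.co l hl).comp hlc hR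
    exact h2.mul (h3.clm_apply continuousOn_const)

theorem TR3_link {κ h : ℝ} {S : ℂ → ℂ} {O : Set ℂ} {N : ℕ} {P : ℕ → ℂ → ℂ} {DP : ℕ → ℂ → ℂ →L[ℝ] ℂ}
    (hB : Bx κ h S O N P DP) (F : ℂ → ℂ) (hF : ∀ w ∈ O, F (S w) = w) (l : ℕ) (hl : l < N) (s : ℝ) (hs : s ∈ Ioo (0 : ℝ) h)
    (t : ℕ) (hA : Al S O (P l) (t + 1) s) : F (S^[t] (P l ⟨0, s⟩)) = S^[t] (P l ⟨1, s⟩) := by
  obtain ⟨-, h2⟩ := hB.li l hl s hs
  rw [← h2, ← Function.iterate_succ_apply, Function.iterate_succ_apply']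
  exact hF _ (hA t (Nat.lt_succ_self t) 1 ⟨zero_le_one, le_rfl⟩)

/-- lower bound of the distance from the fixed point. -/
theorem TR3_low (F S : ℂ → ℂ) (O : Set ℂ) (hF : ∀ w ∈ O, F (S w) = w) (p : ℂ) (η A η' : ℝ) (hA : 0 < A)
    (hη : ∀ z, z ≠ p → ‖z - p‖ < η → ‖F z - p‖ ≤ A * ‖z - p‖) (y : ℂ) (T₀ : ℕ) (hO : ∀ t, S^[t] y ∈ O)
    (hin : ∀ t ≥ T₀, ‖S^[t] y - p‖ < η ∧ S^[t] y ≠ p) (h0 : η' ≤ ‖S^[T₀] y - p‖) :
    ∀ j, η' ≤ A ^ j * ‖S^[T₀ + j] y - p‖ := by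
  intro j
  induction j with
  | zero => simpa using h0
  | succ j ih =>
    have h1 : S^[T₀ + (j + 1)] y = S (S^[T₀ + j] y) := by
      rw [← add_assoc, Function.iterate_succ_apply']
    have h2 : F (S^[T₀ + (j + 1)] y) = S^[T₀ + j] y := by
      rw [h1]; exact hF _ (hO _)
    obtain ⟨h3, h4⟩ := hin (T₀ + (j + 1)) (by omega)
    have h5 := hη _ h4 h3
    rw [h2] at h5
    calc η' ≤ A ^ j * ‖S^[T₀ + j] y - p‖ := ih
      _ ≤ A ^ j * (A * ‖S^[T₀ + (j + 1)] y - p‖) := mul_le_mul_of_nonneg_left h5 (by positivity)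
      _ = A ^ (j + 1) * ‖S^[T₀ + (j + 1)] y - p‖ := by ring

/-- the logarithmic length of one curve. -/
theorem TR3_len (hITD : ITD_stmt) (hLGL : LGL_stmt) {κ h : ℝ} {S : ℂ → ℂ} {O : Set ℂ} {N : ℕ} {P : ℕ → ℂ → ℂ}
    {DP : ℕ → ℂ → ℂ →L[ℝ] ℂ} (hB : Bx κ h S O N P DP) (l : ℕ) (hl : l < N) (s : ℝ) (hs : s ∈ Ioo (0 : ℝ) h) (t : ℕ)
    (hA : Al S O (P l) t s) (ρ : ℂ → ENNReal) (p μ : ℂ) (c : ℝ)
    (hne : ∀ x ∈ Icc (0 : ℝ) 1, S^[t] (P l ⟨x, s⟩) ≠ p)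
    (hρ : ∀ x ∈ Icc (0 : ℝ) 1, ρ (S^[t] (P l ⟨x, s⟩)) = ENNReal.ofReal (‖S^[t] (P l ⟨x, s⟩) - p‖⁻¹))
    (hμ : S^[t] (P l ⟨1, s⟩) - p = μ * (S^[t] (P l ⟨0, s⟩) - p)) (hc : c ≤ ‖Complex.log μ‖) :
    ENNReal.ofReal c ≤ len S (P l) (DP l) ρ t s := by
  obtain ⟨hd, hco⟩ := TR3_cur hITD hB l hl s hs t hA
  have h1 := hLGL (fun x : ℝ => S^[t] (P l ⟨x, s⟩)) (fun x : ℝ => deriv (S^[t]) (P l ⟨x, s⟩) * DP l ⟨x, s⟩ 1) p μ hd hco hne hμ
  have hgc : ContinuousOn (fun x : ℝ => S^[t] (P l ⟨x, s⟩)) (Icc 0 1) := fun x hx => (hd x hx).continuousWithinAt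
  have hφ : ContinuousOn (fun x : ℝ => ‖deriv (S^[t]) (P l ⟨x, s⟩) * DP l ⟨x, s⟩ 1‖ / ‖S^[t] (P l ⟨x, s⟩) - p‖) (Icc 0 1) := by
    refine hco.norm.div (hgc.sub continuousOn_const).norm (fun x hx => ?_)
    exact norm_ne_zero_iff.2 (sub_ne_zero.2 (hne x hx))
  have hint : IntegrableOn (fun x : ℝ => ‖deriv (S^[t]) (P l ⟨x, s⟩) * DP l ⟨x, s⟩ 1‖ / ‖S^[t] (P l ⟨x, s⟩) - p‖) (Ico 0 1) :=
    (hφ.integrableOn_compact isCompact_Icc).mono_set Ico_subset_Icc_self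
  have h2 : ∫ x in (0 : ℝ)..1, ‖deriv (S^[t]) (P l ⟨x, s⟩) * DP l ⟨x, s⟩ 1‖ / ‖S^[t] (P l ⟨x, s⟩) - p‖ =
      ∫ x in Ico (0 : ℝ) 1, ‖deriv (S^[t]) (P l ⟨x, s⟩) * DP l ⟨x, s⟩ 1‖ / ‖S^[t] (P l ⟨x, s⟩) - p‖ := by
    rw [intervalIntegral.integral_of_le zero_le_one, integral_Ico_eq_integral_Ioc]
  have h3 := ofReal_integral_eq_lintegral_ofReal hint
    (Filter.Eventually.of_forall fun x => by positivity)
  have h4 : ENNReal.ofReal c ≤ ENNReal.ofReal (∫ x in Ico (0 : ℝ) 1, ‖deriv (S^[t]) (P l ⟨x, s⟩) * DP l ⟨x, s⟩ 1‖ / ‖S^[t] (P l ⟨x, s⟩) - p‖) := by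
    refine ENNReal.ofReal_le_ofReal (hc.trans ?_)
    rw [← h2]
    exact h1
  refine h4.trans ?_
  rw [h3]
  unfold len
  refine le_of_eq (setLIntegral_congr_fun measurableSet_Ico (fun x hx => ?_))
  have hx' : x ∈ Icc (0 : ℝ) 1 := Ico_subset_Icc_self hx
  show ENNReal.ofReal (‖deriv (S^[t]) (P l ⟨x, s⟩) * DP l ⟨x, s⟩ 1‖ / ‖S^[t] (P l ⟨x, s⟩) - p‖) =
    ρ (S^[t] (P l ⟨x, s⟩)) * ENNReal.ofReal (sp S (P l) (DP l) t ⟨x, s⟩)
  rw [hρ x hx', ← ENNReal.ofReal_mul (by positivity)]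
  unfold sp
  congr 1
  rw [div_eq_inv_mul]

/-- the choice of `η`. -/
theorem TR3_eta (hLGC : LGC_stmt) (F : ℂ → ℂ) (p : ℂ) (δ : ℝ) (hF : Differentiable ℂ F) (hp : F p = p)
    (h1 : 1 ≤ ‖deriv F p‖) (hδ : 0 < δ) : ∃ η > (0 : ℝ), ∀ z, z ≠ p → ‖z - p‖ < η →
    ‖F z - p‖ ≤ Real.exp (Real.log ‖deriv F p‖ + δ) * ‖z - p‖ ∧
    ‖Complex.log (deriv F p)‖ - δ ≤ ‖Complex.log ((F z - p) / (z - p))‖ := by
  have hlam : deriv F p ≠ 0 := by
    intro h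
    rw [h, norm_zero] at h1
    linarith
  have hslope : Tendsto (fun z => (F z - p) / (z - p)) (𝓝[≠] p) (𝓝 (deriv F p)) := by
    have h2 := hasDerivAt_iff_tendsto_slope.1 (hF p).hasDerivAt
    refine h2.congr fun z => ?_
    rw [slope_def_field, hp]
  have hpos : 0 < ‖deriv F p‖ := by linarith
  have hA : ‖deriv F p‖ < Real.exp (Real.log ‖deriv F p‖ + δ) := by
    rw [Real.exp_add, Real.exp_log hpos]
    have : 1 < Real.exp δ := Real.one_lt_exp_iff.2 hδ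
    nlinarith
  have e1 : ∀ᶠ z in 𝓝[≠] p, ‖(F z - p) / (z - p)‖ < Real.exp (Real.log ‖deriv F p‖ + δ) :=
    hslope.norm.eventually (gt_mem_nhds hA)
  have e2 : ∀ᶠ z in 𝓝[≠] p, ‖Complex.log (deriv F p)‖ - δ < ‖Complex.log ((F z - p) / (z - p))‖ :=
    ((hLGC _ hlam).comp hslope).eventually (lt_mem_nhds (by linarith))
  have e3 := (e1.and e2)
  rw [eventually_nhdsWithin_iff, Metric.eventually_nhds_iff] at e3
  obtain ⟨η, hη, h⟩ := e3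
  refine ⟨η, hη, fun z hz hzη => ?_⟩
  obtain ⟨h4, h5⟩ := h (by rw [dist_eq_norm]; exact hzη) hz
  refine ⟨?_, h5.le⟩
  rw [norm_div, div_lt_iff₀ (norm_pos_iff.2 (sub_ne_zero.2 hz))] at h4
  exact h4.le

theorem TR3 (hITD : ITD_stmt) (hKEY : KEY_stmt) (hLGL : LGL_stmt) (hLGC : LGC_stmt) (hLGA : EG.LGA_stmt) : TR3_stmt := by
  intro κ h S O N P DP hB F p δ hF hFS hp h1 hδ hδL
  obtain ⟨η, hη, hηF⟩ := TR3_eta hLGC F p δ hF hp h1 hδ
  refine ⟨η, hη, ?_⟩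
  intro T₀ η' H hη' hη'η hH n
  set τ : ℝ := Real.log ‖deriv F p‖ with hτ
  have hτ0 : 0 ≤ τ := Real.log_nonneg h1
  set A : ℝ := Real.exp (τ + δ) with hAdef
  have hA : 0 < A := Real.exp_pos _
  have hA1 : 1 ≤ A := Real.one_le_exp (by linarith)
  set c : ℝ := ‖Complex.log (deriv F p)‖ - δ with hc
  have hc0 : 0 ≤ c := by rw [hc]; linarith
  set a : ℝ := η' / A ^ n with ha
  have hAn : 1 ≤ A ^ n := one_le_pow₀ hA1
  have hapos : 0 < a := by positivity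
  have haη : a ≤ η := by
    have : a ≤ η' := div_le_self hη'.le hAn
    linarith
  set Ann : Set ℂ := {z : ℂ | a ≤ ‖z - p‖ ∧ ‖z - p‖ ≤ η} with hAnn
  have hAnnm : MeasurableSet Ann := by
    have hc1 : Continuous fun z : ℂ => ‖z - p‖ := (continuous_id.sub continuous_const).norm
    exact (isClosed_le continuous_const hc1).measurableSet.inter (isClosed_le hc1 continuous_const).measurableSet
  set ρ : ℂ → ENNReal := Ann.indicator (fun w => ENNReal.ofReal (‖w - p‖⁻¹)) with hρ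
  have hρm : Measurable ρ := by
    refine Measurable.indicator ?_ hAnnm
    exact ENNReal.measurable_ofReal.comp ((measurable_id.sub measurable_const).norm.inv)
  have halive : ∀ l < N, ∀ s ∈ H l, ∀ t, Al S O (P l) t s := fun l hl s hs => ((hH l hl).2.2 s hs).1
  have hpt : ∀ l < N, ∀ s ∈ H l, ∀ x ∈ Icc (0 : ℝ) 1, ∀ t, S^[t] (P l ⟨x, s⟩) ∈ O := fun l hl s hs x hx t =>
    halive l hl s hs (t + 1) t (Nat.lt_succ_self t) x hx
  -- the points are in the annulus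
  have hann : ∀ l < N, ∀ s ∈ H l, ∀ x ∈ Icc (0 : ℝ) 1, ∀ t, T₀ ≤ t → t < T₀ + n → S^[t] (P l ⟨x, s⟩) ∈ Ann := by
    intro l hl s hs x hx t ht1 ht2
    obtain ⟨-, h3, h4⟩ := (hH l hl).2.2 s hs
    obtain ⟨j, rfl⟩ := Nat.exists_eq_add_of_le ht1
    have h5 := TR3_low F S O hFS p η A η' hA (fun z hz hz' => (hηF z hz hz').1) (P l ⟨x, s⟩) T₀ (hpt l hl s hs x hx)
      (fun t ht => h3 t ht x hx) (h4 x hx) j
    refine ⟨?_, (h3 (T₀ + j) ht1 x hx).1.le⟩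
    rw [ha, div_le_iff₀ (by positivity)]
    have h6 : A ^ j ≤ A ^ n := pow_le_pow_right₀ hA1 (by omega)
    calc η' ≤ A ^ j * ‖S^[T₀ + j] (P l ⟨x, s⟩) - p‖ := h5
      _ ≤ A ^ n * ‖S^[T₀ + j] (P l ⟨x, s⟩) - p‖ := mul_le_mul_of_nonneg_right h6 (norm_nonneg _)
      _ = ‖S^[T₀ + j] (P l ⟨x, s⟩) - p‖ * A ^ n := mul_comm _ _
  -- the lengths
  have hlen : ∀ l < N, ∀ s ∈ H l, ∀ t, T₀ ≤ t → t < T₀ + n → ENNReal.ofReal c ≤ len S (P l) (DP l) ρ t s := by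
    intro l hl s hs t ht1 ht2
    obtain ⟨-, h3, h4⟩ := (hH l hl).2.2 s hs
    have hs' : s ∈ Ioo (0 : ℝ) h := (hH l hl).2.1 hs
    have h0 : (0 : ℝ) ∈ Icc (0 : ℝ) 1 := ⟨le_rfl, zero_le_one⟩
    obtain ⟨h5, h6⟩ := h3 t ht1 0 h0
    refine TR3_len hITD hLGL hB l hl s hs' t (halive l hl s hs t) ρ p
      ((F (S^[t] (P l ⟨0, s⟩)) - p) / (S^[t] (P l ⟨0, s⟩) - p)) c (fun x hx => (h3 t ht1 x hx).2) ?_ ?_ ?_
    · intro x hx
      rw [hρ, Set.indicator_of_mem (hann l hl s hs x hx t ht1 ht2)]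
    · rw [TR3_link hB F hFS l hl s hs' t (halive l hl s hs _)]
      rw [div_mul_cancel₀ _ (sub_ne_zero.2 h6)]
    · exact (hηF _ h6 h5).2
  -- KEY
  classical
  have hK := hKEY κ h S O N P DP hB ρ (fun l t => if T₀ ≤ t ∧ t < T₀ + n then H l else ∅) hρm (by
    intro l hl t
    by_cases ht : T₀ ≤ t ∧ t < T₀ + n
    · simp only [ht, and_self, if_true]
      exact ⟨(hH l hl).1, (hH l hl).2.1, fun s hs => halive l hl s hs _⟩
    · simp only [ht, if_false]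
      exact ⟨MeasurableSet.empty, empty_subset _, fun s hs => absurd hs (notMem_empty s)⟩)
  have hup : ∫⁻ w, ρ w ^ 2 ≤ ENNReal.ofReal (2 * Real.pi * Real.log (η / a)) := by
    refine le_trans (le_of_eq ?_) (hLGA p a η hapos haη)
    rw [← lintegral_indicator hAnnm]
    refine lintegral_congr fun w => ?_
    rw [hρ]
    by_cases hw : w ∈ Ann
    · rw [Set.indicator_of_mem hw, Set.indicator_of_mem hw, ← ENNReal.ofReal_pow (by positivity)]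
      congr 1
      rw [zpow_neg, inv_pow]
      rfl
    · rw [Set.indicator_of_notMem hw, Set.indicator_of_notMem hw]
      simp
  have hlow : (n : ENNReal) * ∑ l ∈ Finset.range N, ENNReal.ofReal c ^ 2 * volume (H l) ≤
      ∑' t : ℕ, ∑ l ∈ Finset.range N, ∫⁻ s in (if T₀ ≤ t ∧ t < T₀ + n then H l else ∅), len S (P l) (DP l) ρ t s ^ 2 := by
    refine le_trans ?_ (ENNReal.sum_le_tsum (Finset.Ico T₀ (T₀ + n)))
    have hcard : (n : ENNReal) = ((Finset.Ico T₀ (T₀ + n)).card : ENNReal) := by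
      rw [Nat.card_Ico, Nat.add_sub_cancel_left]
    rw [hcard, ← nsmul_eq_mul]
    refine Finset.card_nsmul_le_sum _ _ _ fun t ht => ?_
    rw [Finset.mem_Ico] at ht
    refine Finset.sum_le_sum fun l hl => ?_
    rw [Finset.mem_range] at hl
    rw [if_pos ht, ← setLIntegral_const]
    refine setLIntegral_mono' (hH l hl).1 fun s hs => ?_
    exact pow_le_pow_left' (hlen l hl s hs t ht.1 ht.2) 2
  have hfin : ∀ l < N, volume (H l) ≠ ⊤ := by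
    intro l hl
    refine ne_top_of_le_ne_top ?_ (measure_mono (hH l hl).2.1)
    rw [Real.volume_Ioo]
    exact ENNReal.ofReal_ne_top
  have hall : ENNReal.ofReal (κ * (n * ∑ l ∈ Finset.range N, c ^ 2 * (volume (H l)).toReal)) ≤
      ENNReal.ofReal (2 * Real.pi * Real.log (η / a)) := by
    refine le_trans (le_of_eq ?_) ((mul_le_mul' le_rfl hlow).trans (hK.trans hup))
    rw [ENNReal.ofReal_mul hB.kap.le, ENNReal.ofReal_mul (Nat.cast_nonneg n), ENNReal.ofReal_natCast,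
      ENNReal.ofReal_sum_of_nonneg (fun l _ => by positivity)]
    congr 2
    refine Finset.sum_congr rfl fun l hl => ?_
    rw [Finset.mem_range] at hl
    rw [ENNReal.ofReal_mul (by positivity), ENNReal.ofReal_toReal (hfin l hl), ENNReal.ofReal_pow hc0]
  have hlog : Real.log (η / a) = n * (τ + δ) + Real.log (η / η') := by
    have e1 : η / a = A ^ n * (η / η') := by
      rw [ha]
      field_simp
    rw [e1, Real.log_mul (by positivity) (by positivity), Real.log_pow, hAdef, Real.log_exp]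
  have hlog0 : 0 ≤ Real.log (η / a) := Real.log_nonneg ((one_le_div hapos).2 haη)
  rw [ENNReal.ofReal_le_ofReal_iff (by positivity)] at hall
  rw [hlog] at hall
  calc κ * n * c ^ 2 * ∑ l ∈ Finset.range N, (volume (H l)).toReal
      = κ * (n * ∑ l ∈ Finset.range N, c ^ 2 * (volume (H l)).toReal) := by
        rw [← Finset.mul_sum]; ring
    _ ≤ 2 * Real.pi * (n * (τ + δ) + Real.log (η / η')) := hall

end EGH
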